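import Mathlib

/-!
Non-triviality of acceptability for truth-trees with parity: the material tautology `(p ∧ ¬p) → q`
is not acceptable.
-/

set_option autoImplicit false

namespace Pool.Agent.Results.MP_dcacc7_lc.NotAcceptable

/-- Formulae, built from sentence letters (indexed by `ℕ`) with `¬`, `∧`, `∨`, `→`. -/
inductive Fml : Type
  | var (p : ℕ) : Fml
  | neg (φ : Fml) : Fml
  | conj (φ ψ : Fml) : Fml
  | disj (φ ψ : Fml) : Fml
  | imp (φ ψ : Fml) : Fml

/-- The classical truth value of a formula under the assignment `e`, with `→` read materially. -/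
def Fml.True (e : ℕ → Prop) : Fml → Prop
  | .var p => e p
  | .neg φ => ¬ φ.True e
  | .conj φ ψ => φ.True e ∧ ψ.True e
  | .disj φ ψ => φ.True e ∨ ψ.True e
  | .imp φ ψ => ¬ φ.True e ∨ ψ.True e

/-- A material tautology: a classical tautology when each `ψ → θ` is read as `¬ψ ∨ θ`. -/
def MaterialTautology (φ : Fml) : Prop := ∀ e : ℕ → Prop, φ.True e

/-- A node of a truth-tree, as it is recorded on a branch: its formula, the positions on the branch
of the nodes it was obtained from, and, if the node is critical, the position of its partner. -/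
structure Node where
  /-- the formula at the node -/
  fml : Fml
  /-- the positions of the inputs of the node -/
  inputs : List ℕ
  /-- the position of the partner, for critical nodes; `none` for all other nodes -/
  partner : Option ℕ

/-- The node at position `i` of the branch `b` carries the formula `φ`. (The branch is listed from
the root on, so position `0` is the root.) -/
def Has (b : List Node) (i : ℕ) (φ : Fml) : Prop := ∃ n, b[i]? = some n ∧ n.fml = φ

/-- `InTrace b i k`: the node at position `k` is in the trace of the node at position `i`. The trace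
is the least set which contains `i` and with each node the inputs of that node. -/
inductive InTrace (b : List Node) (i : ℕ) : ℕ → Prop
  | self : InTrace b i i
  | input {j k : ℕ} {n : Node} (hj : InTrace b i j) (hn : b[j]? = some n) (hk : k ∈ n.inputs) :
      InTrace b i k

/-- The branch `b` crashes with parity: it has a crash-pair `Z` (nodes `i : ζ` and `j : ¬ζ`, with
trace `T(i) ∪ T(j)`) such that every critical node `c` on `b` is in the trace of `Z` exactly when
the partner `p` of `c` is. -/
def CrashesWithParity (b : List Node) : Prop :=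
  ∃ (i j : ℕ) (ζ : Fml), Has b i ζ ∧ Has b j (.neg ζ) ∧
    ∀ (c p : ℕ) (n : Node), b[c]? = some n → n.partner = some p →
      ((InTrace b i c ∨ InTrace b j c) ↔ (InTrace b i p ∨ InTrace b j p))

/-- `Closes S b`: the branch `b` can be continued, by finitely many applications of the rules, to a
finite tree all of whose branches crash with parity. Here `S` is the set of formulae for which the
recursive rule may be used. -/
inductive Closes (S : Set Fml) : List Node → Prop
  /-- no further rule is applied, and the branch crashes with parity -/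
  | leaf {b : List Node} (h : CrashesWithParity b) : Closes S b
  /-- from `φ ∧ ψ` add `φ, ψ` -/
  | conj {b : List Node} {i : ℕ} {φ ψ : Fml} (hi : Has b i (.conj φ ψ))
      (h : Closes S (b ++ [⟨φ, [i], none⟩, ⟨ψ, [i], none⟩])) : Closes S b
  /-- from `¬(φ ∨ ψ)` add `¬φ, ¬ψ` -/
  | negDisj {b : List Node} {i : ℕ} {φ ψ : Fml} (hi : Has b i (.neg (.disj φ ψ)))
      (h : Closes S (b ++ [⟨.neg φ, [i], none⟩, ⟨.neg ψ, [i], none⟩])) : Closes S b
  /-- from `¬¬φ` add `φ` -/
  | negNeg {b : List Node} {i : ℕ} {φ : Fml} (hi : Has b i (.neg (.neg φ)))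
      (h : Closes S (b ++ [⟨φ, [i], none⟩])) : Closes S b
  /-- from `¬(φ ∧ ψ)` fork into `¬φ | ¬ψ` -/
  | negConj {b : List Node} {i : ℕ} {φ ψ : Fml} (hi : Has b i (.neg (.conj φ ψ)))
      (h₁ : Closes S (b ++ [⟨.neg φ, [i], none⟩]))
      (h₂ : Closes S (b ++ [⟨.neg ψ, [i], none⟩])) : Closes S b
  /-- from `φ ∨ ψ` fork into `φ | ψ` -/
  | disj {b : List Node} {i : ℕ} {φ ψ : Fml} (hi : Has b i (.disj φ ψ))
      (h₁ : Closes S (b ++ [⟨φ, [i], none⟩]))
      (h₂ : Closes S (b ++ [⟨ψ, [i], none⟩])) : Closes S b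
  /-- modus ponens: from `φ` and `φ → ψ` add `ψ` -/
  | mp {b : List Node} {i j : ℕ} {φ ψ : Fml} (hi : Has b i φ) (hj : Has b j (.imp φ ψ))
      (h : Closes S (b ++ [⟨ψ, [i, j], none⟩])) : Closes S b
  /-- counter-case: from `¬(φ → ψ)` add `φ` and `¬ψ`, which are critical and partners -/
  | counter {b : List Node} {i : ℕ} {φ ψ : Fml} (hi : Has b i (.neg (.imp φ ψ)))
      (h : Closes S (b ++ [⟨φ, [i], some (b.length + 1)⟩, ⟨.neg ψ, [i], some b.length⟩])) :
      Closes S b
  /-- recursive rule: from `φ` add `ψ`, if `φ → ψ` is in `S` -/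
  | recursive {b : List Node} {i : ℕ} {φ ψ : Fml} (hi : Has b i φ) (hS : Fml.imp φ ψ ∈ S)
      (h : Closes S (b ++ [⟨ψ, [i], none⟩])) : Closes S b

/-- The set `A` of acceptable formulae: the least set `S` which contains every formula `φ` for
which some truth-tree with root `¬φ`, whose recursive steps use only formulae in `S`, satisfies
parity. -/
def Acceptable : Set Fml :=
  ⋂₀ {S : Set Fml | ∀ φ, Closes S [⟨.neg φ, [], none⟩] → φ ∈ S}

/-! ### Set-labelled semantics -/

section semantics

variable {ι : Type}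

/-- A formula holds at a set `x` of indices. -/
def Holds (v : ℕ → Set ι → Prop) : Fml → Set ι → Prop
  | .var p, x => v p x
  | .neg φ, x => ¬ Holds v φ xᶜ
  | .conj φ ψ, x => Holds v φ x ∧ Holds v ψ x
  | .disj φ ψ, x => Holds v φ x ∨ Holds v ψ x
  | .imp φ ψ, x => ∀ y, Holds v φ y → Holds v ψ (x ∪ y)

theorem holds_mono {v : ℕ → Set ι → Prop} (hv : ∀ p x y, x ⊆ y → v p y → v p x) :
    ∀ (φ : Fml) (x y : Set ι), x ⊆ y → Holds v φ y → Holds v φ x
  | .var p, x, y, h, hy => hv p x y h hy
  | .neg φ, _, _, h, hy => fun hx =>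
      hy (holds_mono hv φ _ _ (Set.compl_subset_compl.mpr h) hx)
  | .conj φ ψ, x, y, h, hy => ⟨holds_mono hv φ x y h hy.1, holds_mono hv ψ x y h hy.2⟩
  | .disj φ ψ, x, y, h, hy => hy.imp (holds_mono hv φ x y h) (holds_mono hv ψ x y h)
  | .imp _ ψ, _, _, h, hy => fun z hz =>
      holds_mono hv ψ _ _ (Set.union_subset_union_left z h) (hy z hz)

/-- The invariant for the branch which is followed through the tree: `L` labels its nodes. -/
structure Good (v : ℕ → Set ι → Prop) (b : List Node) (L : ℕ → Set ι) : Prop where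
  holds : ∀ (i : ℕ) (n : Node), b[i]? = some n → Holds v n.fml (L i)
  lt : ∀ (i : ℕ) (n : Node) (k : ℕ), b[i]? = some n → k ∈ n.inputs → k < i
  ne : ∀ (i : ℕ) (n : Node), b[i]? = some n → i ≠ 0 → n.inputs ≠ []
  flow : ∀ (i : ℕ) (n : Node) (k : ℕ) (a : ι), b[i]? = some n → k ∈ n.inputs → a ∈ L k →
    a ∈ L i ∨ ∃ p, n.partner = some p ∧ k < p ∧ p < b.length ∧ a ∈ L p
  root : L 0 = Set.univ
  nonempty : 0 < b.length

theorem InTrace.trans {b : List Node} {i j k : ℕ} (h₁ : InTrace b i j) (h₂ : InTrace b j k) :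
    InTrace b i k := by
  induction h₂ with
  | self => exact h₁
  | input _ hn hk ih => exact ih.input hn hk

theorem Good.root_inTrace {v : ℕ → Set ι → Prop} {b : List Node} {L : ℕ → Set ι}
    (h : Good v b L) : ∀ i, i < b.length → InTrace b i 0 := by
  intro i
  induction i using Nat.strong_induction_on with
  | _ i ih =>
    intro hi
    rcases Nat.eq_zero_or_pos i with rfl | hpos
    · exact .self
    · have hn : b[i]? = some b[i] := List.getElem?_eq_getElem hi
      obtain ⟨k, hk⟩ := List.exists_mem_of_ne_nil _ (h.ne i _ hn hpos.ne')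
      have hlt := h.lt i _ k hn hk
      exact (InTrace.input .self hn hk).trans (ih k hlt (hlt.trans hi))

/-- The labels of a crash-pair whose trace is closed under partners cover everything. -/
theorem Good.cover {v : ℕ → Set ι → Prop} {b : List Node} {L : ℕ → Set ι}
    (h : Good v b L) {i j : ℕ} (hi : i < b.length)
    (hp : ∀ (c p : ℕ) (n : Node), b[c]? = some n → n.partner = some p →
      (InTrace b i c ∨ InTrace b j c) → p < b.length ∧ (InTrace b i p ∨ InTrace b j p))
    (a : ι) : a ∈ L i ∨ a ∈ L j := by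
  classical
  by_contra hcon
  push Not at hcon
  let W : Finset ℕ := (Finset.range b.length).filter
    fun m => (InTrace b i m ∨ InTrace b j m) ∧ a ∈ L m
  have h0 : 0 ∈ W := by
    simp only [W, Finset.mem_filter, Finset.mem_range]
    exact ⟨h.nonempty, Or.inl (h.root_inTrace i hi), by rw [h.root]; trivial⟩
  obtain ⟨m, hm, hmax⟩ := W.exists_max_image id ⟨0, h0⟩
  simp only [W, Finset.mem_filter, Finset.mem_range, id] at hm hmax
  have key : ∃ (m' : ℕ) (n' : Node), (InTrace b i m' ∨ InTrace b j m') ∧ b[m']? = some n' ∧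
      m ∈ n'.inputs := by
    rcases hm.2.1 with ht | ht
    · cases ht with
      | self => exact absurd hm.2.2 hcon.1
      | input hj hn hk => exact ⟨_, _, Or.inl hj, hn, hk⟩
    · cases ht with
      | self => exact absurd hm.2.2 hcon.2
      | input hj hn hk => exact ⟨_, _, Or.inr hj, hn, hk⟩
  obtain ⟨m', n', hT, hn', hmem⟩ := key
  have hlt' : m' < b.length := (List.getElem?_eq_some_iff.mp hn').1
  have hmm' := h.lt m' n' m hn' hmem
  rcases h.flow m' n' m a hn' hmem hm.2.2 with ha | ⟨p, hpart, hkp, -, ha⟩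
  · have := hmax m' ⟨hlt', hT, ha⟩
    omega
  · obtain ⟨hpl, hpT⟩ := hp m' p n' hn' hpart hT
    have := hmax p ⟨hpl, hpT, ha⟩
    omega

theorem Good.inTrace_lt {v : ℕ → Set ι → Prop} {b : List Node} {L : ℕ → Set ι}
    (h : Good v b L) {i k : ℕ} (hi : i < b.length) (hk : InTrace b i k) : k < b.length := by
  induction hk with
  | self => exact hi
  | input _ hn hk ih => exact (h.lt _ _ _ hn hk).trans ih

theorem Good.not_crashes {v : ℕ → Set ι → Prop} (hv : ∀ p x y, x ⊆ y → v p y → v p x)
    {b : List Node} {L : ℕ → Set ι} (h : Good v b L) : ¬ CrashesWithParity b := by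
  rintro ⟨i, j, ζ, ⟨n, hn, hnf⟩, ⟨n', hn', hnf'⟩, hp⟩
  have hi : i < b.length := (List.getElem?_eq_some_iff.mp hn).1
  have hj : j < b.length := (List.getElem?_eq_some_iff.mp hn').1
  have hc := h.cover hi (j := j) (fun c p n h1 h2 h3 => ⟨?_, (hp c p n h1 h2).mp h3⟩)
  swap
  · rcases (hp c p n h1 h2).mp h3 with h4 | h4
    · exact h.inTrace_lt hi h4
    · exact h.inTrace_lt hj h4
  have h1 : Holds v ζ (L i) := hnf ▸ h.holds i n hn
  have h2 : Holds v (.neg ζ) (L j) := hnf' ▸ h.holds j n' hn'
  refine h2 (holds_mono hv ζ _ _ ?_ h1)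
  intro a ha
  exact (hc a).resolve_right ha

/-- Continuing a branch by a list `e` of new nodes. -/
theorem Good.extend {v : ℕ → Set ι → Prop} {b : List Node} {L L' : ℕ → Set ι} (h : Good v b L)
    (e : List Node) (hL : ∀ i < b.length, L' i = L i)
    (he : ∀ (i : ℕ) (n : Node), e[i]? = some n →
      Holds v n.fml (L' (b.length + i)) ∧ n.inputs ≠ [] ∧
      ∀ k ∈ n.inputs, k < b.length ∧ ∀ a ∈ L k, a ∈ L' (b.length + i) ∨
        ∃ p, n.partner = some p ∧ b.length ≤ p ∧ p < (b ++ e).length ∧ a ∈ L' p) :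
    Good v (b ++ e) L' := by
  have split : ∀ (i : ℕ) (n : Node), (b ++ e)[i]? = some n →
      (i < b.length ∧ b[i]? = some n) ∨ ∃ j, i = b.length + j ∧ e[j]? = some n := by
    intro i n hin
    rcases lt_or_ge i b.length with hi | hi
    · rw [List.getElem?_append_left hi] at hin
      exact Or.inl ⟨hi, hin⟩
    · rw [List.getElem?_append_right hi] at hin
      exact Or.inr ⟨i - b.length, by omega, hin⟩
  have hpos := h.nonempty
  refine ⟨?_, ?_, ?_, ?_, ?_, ?_⟩
  · intro i n hin
    rcases split i n hin with ⟨hi, hn⟩ | ⟨j, rfl, hn⟩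
    · rw [hL i hi]; exact h.holds i n hn
    · exact (he j n hn).1
  · intro i n k hin hk
    rcases split i n hin with ⟨hi, hn⟩ | ⟨j, rfl, hn⟩
    · exact h.lt i n k hn hk
    · have := ((he j n hn).2.2 k hk).1
      omega
  · intro i n hin hi0
    rcases split i n hin with ⟨hi, hn⟩ | ⟨j, rfl, hn⟩
    · exact h.ne i n hn hi0
    · exact (he j n hn).2.1
  · intro i n k a hin hk ha
    rcases split i n hin with ⟨hi, hn⟩ | ⟨j, rfl, hn⟩
    · have hki := h.lt i n k hn hk
      rw [hL k (hki.trans hi)] at ha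
      rw [hL i hi]
      rcases h.flow i n k a hn hk ha with h1 | ⟨p, hp, hkp, hpl, hap⟩
      · exact Or.inl h1
      · refine Or.inr ⟨p, hp, hkp, ?_, ?_⟩
        · rw [List.length_append]; omega
        · rw [hL p hpl]; exact hap
    · obtain ⟨hkl, hfl⟩ := (he j n hn).2.2 k hk
      rw [hL k hkl] at ha
      rcases hfl a ha with h1 | ⟨p, hp, hbp, hpl, hap⟩
      · exact Or.inl h1
      · exact Or.inr ⟨p, hp, lt_of_lt_of_le hkl hbp, hpl, hap⟩
  · rw [hL 0 hpos, h.root]
  · rw [List.length_append]; omega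

/-- Adding one non-critical node. -/
theorem Good.one {v : ℕ → Set ι → Prop} {b : List Node} {L : ℕ → Set ι} (h : Good v b L)
    (φ : Fml) (l : List ℕ) (x : Set ι) (hx : Holds v φ x) (hne : l ≠ [])
    (hl : ∀ k ∈ l, k < b.length ∧ L k ⊆ x) :
    Good v (b ++ [⟨φ, l, none⟩]) (Function.update L b.length x) := by
  refine h.extend _ (fun i hi => Function.update_of_ne hi.ne _ _) ?_
  intro i n hn
  rcases i with _ | i
  · simp only [List.getElem?_cons_zero, Option.some.injEq] at hn
    subst hn
    simp only [Nat.add_zero, Function.update_self]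
    exact ⟨hx, hne, fun k hk => ⟨(hl k hk).1, fun a ha => Or.inl ((hl k hk).2 ha)⟩⟩
  · simp at hn

/-- Adding two nodes. -/
theorem Good.two {v : ℕ → Set ι → Prop} {b : List Node} {L : ℕ → Set ι} (h : Good v b L)
    (φ ψ : Fml) (k : ℕ) (o o' : Option ℕ) (x y : Set ι) (hx : Holds v φ x) (hy : Holds v ψ y)
    (hk : k < b.length)
    (ho : L k ⊆ x ∨ o = some (b.length + 1) ∧ L k ⊆ x ∪ y)
    (ho' : L k ⊆ y ∨ o' = some b.length ∧ L k ⊆ x ∪ y) :
    Good v (b ++ [⟨φ, [k], o⟩, ⟨ψ, [k], o'⟩])
      (Function.update (Function.update L b.length x) (b.length + 1) y) := by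
  have e1 : Function.update (Function.update L b.length x) (b.length + 1) y b.length = x := by
    rw [Function.update_of_ne (by omega), Function.update_self]
  have e2 : Function.update (Function.update L b.length x) (b.length + 1) y (b.length + 1) = y := by
    rw [Function.update_self]
  refine h.extend _ (fun i hi => ?_) ?_
  · rw [Function.update_of_ne (by omega), Function.update_of_ne (by omega)]
  intro i n hn
  rcases i with _ | _ | i
  · simp only [List.getElem?_cons_zero, Option.some.injEq] at hn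
    subst hn
    have e0 : b.length + 0 = b.length := rfl
    rw [e0, e1]
    refine ⟨hx, by simp, ?_⟩
    intro k' hk'
    rw [List.mem_singleton] at hk'
    subst hk'
    refine ⟨hk, fun a ha => ?_⟩
    rcases ho with ho | ⟨ho, hsub⟩
    · exact Or.inl (ho ha)
    · rcases hsub ha with h1 | h1
      · exact Or.inl h1
      · exact Or.inr ⟨b.length + 1, ho, by omega, by simp, by rw [e2]; exact h1⟩
  · simp only [List.getElem?_cons_succ, List.getElem?_cons_zero, zero_add, Option.some.injEq] at hn
    subst hn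
    rw [zero_add, e2]
    refine ⟨hy, by simp, ?_⟩
    intro k' hk'
    rw [List.mem_singleton] at hk'
    subst hk'
    refine ⟨hk, fun a ha => ?_⟩
    rcases ho' with ho | ⟨ho, hsub⟩
    · exact Or.inl (ho ha)
    · rcases hsub ha with h1 | h1
      · exact Or.inr ⟨b.length, ho, le_rfl, by simp, by rw [e1]; exact h1⟩
      · exact Or.inl h1
  · simp at hn

theorem sound_aux {v : ℕ → Set ι → Prop} (hv : ∀ p x y, x ⊆ y → v p y → v p x) {S : Set Fml}
    (hS : ∀ φ ∈ S, Holds v φ ∅) {b : List Node} (hb : Closes S b) :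
    ∀ L : ℕ → Set ι, ¬ Good v b L := by
  have at_ : ∀ {b : List Node} {L : ℕ → Set ι} {i : ℕ} {φ : Fml}, Good v b L → Has b i φ →
      i < b.length ∧ Holds v φ (L i) := by
    rintro b L i φ h ⟨n, hn, rfl⟩
    exact ⟨(List.getElem?_eq_some_iff.mp hn).1, h.holds i n hn⟩
  induction hb with
  | leaf h => exact fun L hL => hL.not_crashes hv h
  | @conj b i φ ψ hi _ ih =>
    intro L hL
    obtain ⟨hlt, h1, h2⟩ := at_ hL hi
    exact ih _ (hL.two φ ψ i none none (L i) (L i) h1 h2 hlt (Or.inl le_rfl) (Or.inl le_rfl))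
  | @negDisj b i φ ψ hi _ ih =>
    intro L hL
    obtain ⟨hlt, h1⟩ := at_ hL hi
    exact ih _ (hL.two _ _ i none none (L i) (L i) (fun h => h1 (Or.inl h))
      (fun h => h1 (Or.inr h)) hlt (Or.inl le_rfl) (Or.inl le_rfl))
  | @negNeg b i φ hi _ ih =>
    intro L hL
    obtain ⟨hlt, h1⟩ := at_ hL hi
    have h2 : Holds v φ (L i) := by
      have := not_not.mp h1
      rwa [compl_compl] at this
    exact ih _ (hL.one φ [i] (L i) h2 (by simp) (by simpa using hlt))
  | @negConj b i φ ψ hi _ _ ih₁ ih₂ =>
    intro L hL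
    obtain ⟨hlt, h1⟩ := at_ hL hi
    by_cases h2 : Holds v φ (L i)ᶜ
    · exact ih₂ _ (hL.one _ [i] (L i) (fun h => h1 ⟨h2, h⟩) (by simp) (by simpa using hlt))
    · exact ih₁ _ (hL.one _ [i] (L i) h2 (by simp) (by simpa using hlt))
  | @disj b i φ ψ hi _ _ ih₁ ih₂ =>
    intro L hL
    obtain ⟨hlt, h1⟩ := at_ hL hi
    rcases h1 with h1 | h1
    · exact ih₁ _ (hL.one _ [i] (L i) h1 (by simp) (by simpa using hlt))
    · exact ih₂ _ (hL.one _ [i] (L i) h1 (by simp) (by simpa using hlt))
  | @mp b i j φ ψ hi hj _ ih =>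
    intro L hL
    obtain ⟨hlt, h1⟩ := at_ hL hi
    obtain ⟨hlt', h2⟩ := at_ hL hj
    exact ih _ (hL.one _ [i, j] (L j ∪ L i) (h2 _ h1) (by simp)
      (by simpa using ⟨hlt, hlt'⟩))
  | @counter b i φ ψ hi _ ih =>
    intro L hL
    obtain ⟨hlt, h1⟩ := at_ hL hi
    have h2 : ∃ y, Holds v φ y ∧ ¬ Holds v ψ ((L i)ᶜ ∪ y) := by
      by_contra hcon
      push Not at hcon
      exact h1 hcon
    obtain ⟨y, hy1, hy2⟩ := h2
    have hcov : L i ⊆ y ∪ ((L i)ᶜ ∪ y)ᶜ := by
      intro a ha
      by_cases hay : a ∈ y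
      · exact Or.inl hay
      · exact Or.inr (by simp [ha, hay])
    exact ih _ (hL.two φ (.neg ψ) i _ _ y ((L i)ᶜ ∪ y)ᶜ hy1
      (fun h => hy2 (by rwa [compl_compl] at h)) hlt (Or.inr ⟨rfl, hcov⟩) (Or.inr ⟨rfl, hcov⟩))
  | @recursive b i φ ψ hi hS' _ ih =>
    intro L hL
    obtain ⟨hlt, h1⟩ := at_ hL hi
    have h2 : Holds v ψ (L i) := by
      have := hS _ hS' (L i) h1
      rwa [Set.empty_union] at this
    exact ih _ (hL.one _ [i] (L i) h2 (by simp) (by simpa using hlt))

/-- Acceptable formulae hold at the empty set, for every valuation by downward closed families. -/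
theorem sound {v : ℕ → Set ι → Prop} (hv : ∀ p x y, x ⊆ y → v p y → v p x) {φ : Fml}
    (hφ : φ ∈ Acceptable) : Holds v φ ∅ := by
  refine hφ {ψ | Holds v ψ ∅} ?_
  intro ψ hψ
  by_contra hcon
  refine sound_aux hv (fun χ hχ => hχ) hψ (fun _ => Set.univ) ⟨?_, ?_, ?_, ?_, rfl, by simp⟩
  · intro i n hn
    rcases i with _ | i
    · simp only [List.getElem?_cons_zero, Option.some.injEq] at hn
      subst hn
      show ¬ Holds v ψ (Set.univ)ᶜ
      rwa [Set.compl_univ]
    · simp at hn
  · intro i n k hn hk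
    rcases i with _ | i
    · simp only [List.getElem?_cons_zero, Option.some.injEq] at hn
      subst hn
      simp at hk
    · simp at hn
  · intro i n hn hi
    rcases i with _ | i
    · exact absurd rfl hi
    · simp at hn
  · intro i n k a hn hk
    rcases i with _ | i
    · simp only [List.getElem?_cons_zero, Option.some.injEq] at hn
      subst hn
      simp at hk
    · simp at hn

end semantics

/-- **Non-triviality of acceptability.** For distinct letters `p` and `q`, the formula
`(p ∧ ¬p) → q` is a material tautology but it is not acceptable. -/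
theorem result (p q : ℕ) (hpq : p ≠ q) :
    MaterialTautology (.imp (.conj (.var p) (.neg (.var p))) (.var q)) ∧
      Fml.imp (.conj (.var p) (.neg (.var p))) (.var q) ∉ Acceptable := by
  classical
  refine ⟨fun e => ?_, fun h => ?_⟩
  · simp only [Fml.True]
    tauto
  let v : ℕ → Set Bool → Prop := fun r x => if r = p then true ∉ x else false ∉ x
  have hv : ∀ (r : ℕ) (x y : Set Bool), x ⊆ y → v r y → v r x := by
    intro r x y hxy
    simp only [v]
    split_ifs
    · exact fun h h' => h (hxy h')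
    · exact fun h h' => h (hxy h')
  have hs := sound hv h {false} ?_
  · simp [Holds, v, hpq.symm] at hs
  · simp [Holds, v]

end Pool.Agent.Results.MP_dcacc7_lc.NotAcceptable
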